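import Mathlib

/-!
# Fixed spaces of a group acting on a polytope are determined by the face lattice

A finite point configuration is given by a space `F` of functions (the restrictions of the affine
functions) on the finite set `X` of its vertices. For a group `K` of permutations which preserve `F`
the dimension of the space of the `K`-invariant functions in `F` is the largest length of a chain of
`K`-invariant faces.
-/

set_option autoImplicit false
set_option linter.unusedSectionVars false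

namespace Pool.Agent.H9.RP

open Finset Module

variable {X : Type*} [Fintype X] [DecidableEq X]

/-- `S` is a face of the point configuration given by the space `F` of functions. -/
def Face (F : Submodule ℝ (X → ℝ)) (S : Finset X) : Prop :=
  ∃ f ∈ F, (∀ x, f x ≤ 0) ∧ ∀ x, x ∈ S ↔ f x = 0

/-- the functions in `F` invariant under `K` -/
def inv (F : Submodule ℝ (X → ℝ)) (K : Subgroup (Equiv.Perm X)) : Submodule ℝ (X → ℝ) where
  carrier := {f | f ∈ F ∧ ∀ k ∈ K, ∀ x, f (k x) = f x}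
  add_mem' := by
    rintro f g ⟨hf, hf'⟩ ⟨hg, hg'⟩
    exact ⟨F.add_mem hf hg, fun k hk x => by simp [hf' k hk, hg' k hk]⟩
  zero_mem' := ⟨F.zero_mem, fun _ _ _ => rfl⟩
  smul_mem' := by
    rintro c f ⟨hf, hf'⟩
    exact ⟨F.smul_mem c hf, fun k hk x => by simp [hf' k hk]⟩

/-- the functions which vanish on `Q` -/
def van (Q : Finset X) : Submodule ℝ (X → ℝ) where
  carrier := {f | ∀ x ∈ Q, f x = 0}
  add_mem' := by
    intro f g hf hg x hx
    simp [hf x hx, hg x hx]
  zero_mem' := fun _ _ => rfl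
  smul_mem' := by
    intro c f hf x hx
    simp [hf x hx]

/-- `Q` is invariant under `K` -/
def Stab (K : Subgroup (Equiv.Perm X)) (Q : Finset X) : Prop := ∀ k ∈ K, ∀ x, k x ∈ Q ↔ x ∈ Q

/-- the codimension function -/
noncomputable def nn (F : Submodule ℝ (X → ℝ)) (K : Subgroup (Equiv.Perm X)) (Q : Finset X) : ℕ :=
  finrank ℝ (inv F K ⊓ van Q : Submodule ℝ (X → ℝ))

variable {F : Submodule ℝ (X → ℝ)} {K : Subgroup (Equiv.Perm X)}

/-- an invariant supporting function -/
theorem exists_supp (hK : ∀ k ∈ K, ∀ f ∈ F, (fun x => f (k x)) ∈ F) {Q : Finset X} (hQ : Face F Q)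
    (hs : Stab K Q) : ∃ f ∈ inv F K, (∀ x, f x ≤ 0) ∧ ∀ x, x ∈ Q ↔ f x = 0 := by
  classical
  obtain ⟨f0, hf0, hneg, hz⟩ := hQ
  refine ⟨fun x => ∑ k : K, f0 (k.1 x), ⟨?_, ?_⟩, ?_, ?_⟩
  · have : (fun x => ∑ k : K, f0 (k.1 x)) = ∑ k : K, fun x => f0 (k.1 x) := by
      funext x
      simp
    rw [this]
    exact F.sum_mem fun k _ => hK k.1 k.2 f0 hf0
  · intro k' hk' x
    show ∑ k : K, f0 (k.1 (k' x)) = ∑ k : K, f0 (k.1 x)
    exact Fintype.sum_equiv (Equiv.mulRight (⟨k', hk'⟩ : K)) _ _ fun k => by simp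
  · intro x
    exact Finset.sum_nonpos fun k _ => hneg _
  · intro x
    show x ∈ Q ↔ ∑ k : K, f0 (k.1 x) = 0
    rw [Finset.sum_eq_zero_iff_of_nonpos fun k _ => hneg _]
    constructor
    · intro hx k _
      exact (hz _).1 ((hs k.1 k.2 x).2 hx)
    · intro h
      have := h 1 (Finset.mem_univ _)
      exact (hz x).2 (by simpa using this)

theorem van_mono {Q Q' : Finset X} (h : Q' ⊆ Q) : (van Q : Submodule ℝ (X → ℝ)) ≤ van Q' :=
  fun _ hf x hx => hf x (h hx)

/-- a smaller invariant face has a larger codimension -/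
theorem nn_lt (hK : ∀ k ∈ K, ∀ f ∈ F, (fun x => f (k x)) ∈ F) {Q Q' : Finset X} (hQ' : Face F Q')
    (hs : Stab K Q') (hlt : Q' ⊂ Q) : nn F K Q + 1 ≤ nn F K Q' := by
  obtain ⟨f, hf, hneg, hz⟩ := exists_supp hK hQ' hs
  refine Nat.succ_le_of_lt (Submodule.finrank_lt_finrank_of_lt ?_)
  refine lt_of_le_of_ne (inf_le_inf_left _ (van_mono hlt.1)) ?_
  intro heq
  have hmem : f ∈ inv F K ⊓ van Q' := ⟨hf, fun x hx => (hz x).1 hx⟩
  rw [← heq] at hmem
  exact hlt.2 fun x hx => (hz x).2 (hmem.2 x hx)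

/-- there is an invariant face below with codimension one more -/
theorem exists_facet (h1 : (fun _ => (1 : ℝ)) ∈ F) (hK : ∀ k ∈ K, ∀ f ∈ F, (fun x => f (k x)) ∈ F)
    {Q : Finset X} (hne : Q.Nonempty) (hQ : Face F Q) (hs : Stab K Q) :
    ∃ Q' ⊂ Q, Face F Q' ∧ Stab K Q' ∧ nn F K Q' ≤ nn F K Q + 1 := by
  classical
  -- a maximal invariant face below `Q`
  set 𝒬 : Finset (Finset X) := Q.powerset.filter fun R => R ≠ Q ∧ Face F R ∧ Stab K R with h𝒬
  have h0 : (∅ : Finset X) ∈ 𝒬 := by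
    rw [h𝒬, Finset.mem_filter]
    refine ⟨Finset.empty_mem_powerset _, hne.ne_empty.symm, ⟨-(fun _ => (1 : ℝ)), F.neg_mem h1, ?_, ?_⟩, ?_⟩
    · intro x
      simp
    · intro x
      simp
    · intro k _ x
      simp
  obtain ⟨Q', hQ'm, hmax⟩ := Finset.exists_max_image 𝒬 Finset.card ⟨_, h0⟩
  rw [h𝒬, Finset.mem_filter, Finset.mem_powerset] at hQ'm
  obtain ⟨hsub, hneq, hF', hS'⟩ := hQ'm
  refine ⟨Q', lt_of_le_of_ne hsub hneq, hF', hS', ?_⟩
  by_contra hcon
  push Not at hcon
  obtain ⟨f0, hf0, hneg0, hz0⟩ := exists_supp hK hF' hS'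
  obtain ⟨fQ, hfQ, hnegQ, hzQ⟩ := exists_supp hK hQ hs
  set N : Submodule ℝ (X → ℝ) := inv F K ⊓ van Q with hN
  set N' : Submodule ℝ (X → ℝ) := inv F K ⊓ van Q' with hN'
  -- a second function
  have hex : ∃ f1 ∈ N', f1 ∉ N ⊔ Submodule.span ℝ {f0} := by
    by_contra hno
    push Not at hno
    have hle : N' ≤ N ⊔ Submodule.span ℝ {f0} := hno
    have h2 := Submodule.finrank_mono hle
    have h3 := Submodule.finrank_add_le_finrank_add_finrank N (Submodule.span ℝ {f0})
    have h4 : finrank ℝ (Submodule.span ℝ {f0}) ≤ 1 := (finrank_span_le_card ({f0} : Set (X → ℝ))).trans (by simp)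
    have h5 : nn F K Q + 1 < finrank ℝ N' := hcon
    have h6 : nn F K Q = finrank ℝ N := rfl
    omega
  obtain ⟨f1', hf1', hout'⟩ := hex
  have hnv : ∃ v ∈ Q, f1' v ≠ 0 := by
    by_contra hno
    push Not at hno
    exact hout' (Submodule.mem_sup_left ⟨hf1'.1, fun x hx => hno x hx⟩)
  obtain ⟨f1, hf1, hout, v, hv, hfv⟩ : ∃ f1 ∈ N', f1 ∉ N ⊔ Submodule.span ℝ {f0} ∧ ∃ v ∈ Q, 0 < f1 v := by
    obtain ⟨v, hv, hfv⟩ := hnv
    rcases lt_or_gt_of_ne hfv with h | h
    · refine ⟨-f1', N'.neg_mem hf1', fun hc => hout' ?_, v, hv, by simpa using h⟩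
      have := (N ⊔ Submodule.span ℝ {f0}).neg_mem hc
      simpa using this
    · exact ⟨f1', hf1', hout', v, hv, h⟩
  -- the values of `f0` where `f1` is positive
  have hf0neg : ∀ x ∈ Q, 0 < f1 x → f0 x < 0 := by
    intro x hx hpos
    refine lt_of_le_of_ne (hneg0 x) fun h0 => ?_
    have : x ∈ Q' := (hz0 x).2 h0
    have := hf1.2 x this
    linarith
  set P : Finset X := Q.filter fun x => 0 < f1 x with hP
  have hPne : P.Nonempty := ⟨v, Finset.mem_filter.2 ⟨hv, hfv⟩⟩
  obtain ⟨w, hwP, hwmin⟩ := Finset.exists_min_image P (fun x => -f0 x / f1 x) hPne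
  rw [hP, Finset.mem_filter] at hwP
  set t : ℝ := -f0 w / f1 w with ht
  have htpos : 0 < t := by
    have := hf0neg w hwP.1 hwP.2
    exact div_pos (by linarith) hwP.2
  have hle : ∀ x ∈ Q, f0 x + t * f1 x ≤ 0 := by
    intro x hx
    by_cases hpos : 0 < f1 x
    · have h1 : t ≤ -f0 x / f1 x := hwmin x (Finset.mem_filter.2 ⟨hx, hpos⟩)
      rw [le_div_iff₀ hpos] at h1
      linarith
    · push Not at hpos
      have := hneg0 x
      have : t * f1 x ≤ 0 := mul_nonpos_of_nonneg_of_nonpos htpos.le hpos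
      linarith
  have hw0 : f0 w + t * f1 w = 0 := by
    have hne' : f1 w ≠ 0 := hwP.2.ne'
    rw [ht]
    field_simp
    ring
  -- a large multiple of the supporting function of `Q`
  obtain ⟨lam, hlam⟩ : ∃ lam : ℝ, 0 ≤ lam ∧ ∀ x, x ∉ Q → f0 x + t * f1 x + lam * fQ x < 0 := by
    have hc : ∀ x, ∃ l : ℝ, 0 ≤ l ∧ ∀ l' : ℝ, l ≤ l' → x ∉ Q → f0 x + t * f1 x + l' * fQ x < 0 := by
      intro x
      by_cases hx : x ∈ Q
      · exact ⟨0, le_rfl, fun _ _ h => absurd hx h⟩
      · have hneg : fQ x < 0 := lt_of_le_of_ne (hnegQ x) fun h => hx ((hzQ x).2 h)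
        refine ⟨(|f0 x + t * f1 x| + 1) / (-fQ x), div_nonneg (by positivity) (by linarith), fun l' hl' _ => ?_⟩
        have hpos : 0 < -fQ x := by linarith
        rw [div_le_iff₀ hpos] at hl'
        have := le_abs_self (f0 x + t * f1 x)
        nlinarith
    choose l hl using hc
    refine ⟨∑ x, l x, Finset.sum_nonneg fun x _ => (hl x).1, fun x hx => ?_⟩
    exact (hl x).2 _ (Finset.single_le_sum (fun y _ => (hl y).1) (Finset.mem_univ x)) hx
  set f : X → ℝ := fun x => f0 x + t * f1 x + lam * fQ x with hf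
  have hfF : f ∈ inv F K := by
    have : f = f0 + t • f1 + lam • fQ := by
      funext x
      simp [hf]
    rw [this]
    exact (inv F K).add_mem ((inv F K).add_mem hf0 ((inv F K).smul_mem _ hf1.1)) ((inv F K).smul_mem _ hfQ)
  have hfle : ∀ x, f x ≤ 0 := by
    intro x
    by_cases hx : x ∈ Q
    · have h1 := hle x hx
      have h2 := (hzQ x).1 hx
      simp only [hf, h2, mul_zero, add_zero]
      exact h1
    · exact (hlam.2 x hx).le
  set Q'' : Finset X := Finset.univ.filter fun x => f x = 0 with hQ''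
  have hmem : ∀ x, x ∈ Q'' ↔ f x = 0 := fun x => by simp [hQ'']
  have hsub2 : Q'' ⊆ Q := by
    intro x hx
    by_contra hxQ
    have h1 := (hmem x).1 hx
    have h2 := hlam.2 x hxQ
    simp only [hf] at h1
    linarith
  have hface : Face F Q'' := ⟨f, hfF.1, hfle, hmem⟩
  have hstab : Stab K Q'' := by
    intro k hk x
    rw [hmem, hmem, hfF.2 k hk x]
  have hne2 : Q'' ≠ Q := by
    intro heq
    apply hout
    have hall : ∀ x ∈ Q, f0 x + t * f1 x = 0 := by
      intro x hx
      have h1 := (hmem x).1 (heq ▸ hx)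
      have h2 := (hzQ x).1 hx
      simpa [hf, h2] using h1
    have hNm : f0 + t • f1 ∈ N := by
      refine ⟨(inv F K).add_mem hf0 ((inv F K).smul_mem _ hf1.1), fun x hx => ?_⟩
      simpa using hall x hx
    have e : f1 = t⁻¹ • (f0 + t • f1) + (-t⁻¹) • f0 := by
      rw [smul_add, smul_smul, inv_mul_cancel₀ htpos.ne', one_smul]
      module
    rw [e]
    exact Submodule.add_mem _ (Submodule.smul_mem _ _ (Submodule.mem_sup_left hNm))
      (Submodule.smul_mem _ _ (Submodule.mem_sup_right (Submodule.mem_span_singleton_self f0)))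
  have hcard := hmax Q'' (by
    rw [h𝒬, Finset.mem_filter, Finset.mem_powerset]
    exact ⟨hsub2, hne2, hface, hstab⟩)
  have hss : Q' ⊂ Q'' := by
    refine ⟨fun x hx => ?_, fun h => ?_⟩
    · rw [hmem]
      have h1 := (hz0 x).1 hx
      have h2 := hf1.2 x hx
      have h3 := (hzQ x).1 (hsub hx)
      simp [hf, h1, h2, h3]
    · have hw'' : w ∈ Q'' := by
        rw [hmem]
        have h3 := (hzQ w).1 hwP.1
        simp only [hf, h3, mul_zero, add_zero]
        exact hw0
      have := hf1.2 w (h hw'')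
      linarith [hwP.2]
  exact absurd hcard (not_le.2 (Finset.card_lt_card hss))

theorem nn_univ : nn F K Finset.univ = 0 := by
  have : (inv F K ⊓ van Finset.univ : Submodule ℝ (X → ℝ)) = ⊥ := by
    rw [eq_bot_iff]
    rintro f ⟨-, hf⟩
    rw [Submodule.mem_bot]
    funext x
    exact hf x (Finset.mem_univ x)
  rw [nn, this, finrank_bot]

theorem nn_empty : nn F K ∅ = finrank ℝ (inv F K) := by
  have : (inv F K ⊓ van ∅ : Submodule ℝ (X → ℝ)) = inv F K := by
    apply inf_eq_left.2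
    intro f _ x hx
    simp at hx
  rw [nn, this]

/-- the comparison of two configurations with the same faces -/
theorem comparison {F' : Submodule ℝ (X → ℝ)} (h1 : (fun _ => (1 : ℝ)) ∈ F)
    (hK : ∀ k ∈ K, ∀ f ∈ F, (fun x => f (k x)) ∈ F) (hK' : ∀ k ∈ K, ∀ f ∈ F', (fun x => f (k x)) ∈ F')
    (hface : ∀ S, Face F S → Face F' S) :
    ∀ (n : ℕ) (Q : Finset X), Q.card ≤ n → Face F Q → Stab K Q →
      nn F' K Q + finrank ℝ (inv F K) ≤ nn F K Q + finrank ℝ (inv F' K) := by
  intro n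
  induction n with
  | zero =>
    intro Q hQ _ _
    have : Q = ∅ := Finset.card_eq_zero.1 (Nat.le_zero.1 hQ)
    subst this
    rw [nn_empty, nn_empty, add_comm]
  | succ n ih =>
    intro Q hQ hf hs
    rcases Q.eq_empty_or_nonempty with rfl | hne
    · rw [nn_empty, nn_empty, add_comm]
    · obtain ⟨Q', hlt, hf', hs', hnn⟩ := exists_facet h1 hK hne hf hs
      have h2 := ih Q' (by have := Finset.card_lt_card hlt; omega) hf' hs'
      have h3 := nn_lt hK' (hface Q' hf') hs' hlt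
      omega

/-- **The dimensions of the fixed spaces are determined by the faces.** -/
theorem finrank_inv_eq {F' : Submodule ℝ (X → ℝ)} (h1 : (fun _ => (1 : ℝ)) ∈ F)
    (h1' : (fun _ => (1 : ℝ)) ∈ F')
    (hK : ∀ k ∈ K, ∀ f ∈ F, (fun x => f (k x)) ∈ F) (hK' : ∀ k ∈ K, ∀ f ∈ F', (fun x => f (k x)) ∈ F')
    (hface : ∀ S, Face F S ↔ Face F' S) : finrank ℝ (inv F K) = finrank ℝ (inv F' K) := by
  have hu : ∀ {F : Submodule ℝ (X → ℝ)}, Face F Finset.univ := fun {F} =>
    ⟨0, F.zero_mem, fun _ => le_rfl, fun x => by simp⟩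
  have hs : Stab K (Finset.univ : Finset X) := fun _ _ _ => by simp
  have a := comparison h1 hK hK' (fun S => (hface S).1) _ Finset.univ le_rfl hu hs
  have b := comparison h1' hK' hK (fun S => (hface S).2) _ Finset.univ le_rfl hu hs
  rw [nn_univ, nn_univ] at a b
  omega

end Pool.Agent.H9.RP
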