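import Mathlib

/-!
# The trace form on the enveloping algebra of a finite matrix group is nondegenerate
-/

set_option autoImplicit false
set_option linter.unusedSectionVars false

namespace Pool.Agent.H9.RP

open Matrix Module

variable {d : ℕ}

theorem diag_formula (M P : Matrix (Fin d) (Fin d) ℝ) :
    (M * P * Mᵀ).trace = ∑ i, star (M i) ⬝ᵥ (P *ᵥ M i) := by
  rw [Matrix.trace]
  refine Finset.sum_congr rfl fun i _ => ?_
  rw [Matrix.diag_apply, Matrix.mul_assoc, Matrix.mul_apply_eq_vecMul]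
  simp only [star_trivial, Matrix.vecMul, dotProduct, Matrix.mulVec, Matrix.mul_apply, Matrix.transpose_apply]

theorem quad_nonneg {P : Matrix (Fin d) (Fin d) ℝ} (hP : P.PosDef) (M : Matrix (Fin d) (Fin d) ℝ) :
    0 ≤ (M * P * Mᵀ).trace := by
  rw [diag_formula]
  exact Finset.sum_nonneg fun i _ => hP.posSemidef.dotProduct_mulVec_nonneg _

theorem quad_zero {P : Matrix (Fin d) (Fin d) ℝ} (hP : P.PosDef) {M : Matrix (Fin d) (Fin d) ℝ}
    (h : (M * P * Mᵀ).trace = 0) : M = 0 := by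
  rw [diag_formula, Finset.sum_eq_zero_iff_of_nonneg fun i _ => hP.posSemidef.dotProduct_mulVec_nonneg _] at h
  by_contra hM
  obtain ⟨i, hi⟩ : ∃ i, M i ≠ 0 := by
    by_contra hno
    push Not at hno
    exact hM (funext hno)
  exact absurd (h i (Finset.mem_univ i)) (hP.dotProduct_mulVec_pos hi).ne'

/-- Nondegeneracy of the trace form. -/
theorem trace_nondeg {ι : Type} [Fintype ι] [Nonempty ι] (g : ι → Matrix (Fin d) (Fin d) ℝ)
    (hinv : ∀ i, ∃ j, g i * g j = 1) (hmul : ∀ i, ∃ e : ι ≃ ι, ∀ j, g j * g i = g (e j))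
    {M : Matrix (Fin d) (Fin d) ℝ}
    (hM : M ∈ Submodule.span ℝ (Set.range g)) (h0 : ∀ i, (M * g i).trace = 0) : M = 0 := by
  classical
  set B : Matrix (Fin d) (Fin d) ℝ := ∑ i, (g i)ᵀ * g i with hB
  have hunit : ∀ i, IsUnit (g i) := fun i => by
    obtain ⟨j, hj⟩ := hinv i
    exact IsUnit.of_mul_eq_one _ hj
  have hpos1 : ∀ i, ((g i)ᵀ * g i).PosDef := fun i => by
    have := Matrix.PosDef.conjTranspose_mul_self (R := ℝ) (g i) (Matrix.mulVec_injective_iff_isUnit.2 (hunit i))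
    simpa [Matrix.conjTranspose_eq_transpose_of_trivial] using this
  have hBpos : B.PosDef := Matrix.posDef_sum Finset.univ_nonempty fun i _ => hpos1 i
  have hBunit : IsUnit B := hBpos.isUnit
  have hBdet : IsUnit B.det := (Matrix.isUnit_iff_isUnit_det B).1 hBunit
  have hinvB : ∀ i, (g i)ᵀ * B * g i = B := by
    intro i
    obtain ⟨e, he⟩ := hmul i
    rw [hB, Finset.mul_sum, Finset.sum_mul]
    refine Fintype.sum_equiv e _ _ fun j => ?_
    rw [← he, Matrix.transpose_mul]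
    simp only [Matrix.mul_assoc]
  -- the adjoint
  have hadj : ∀ N ∈ Submodule.span ℝ (Set.range g), B⁻¹ * Nᵀ * B ∈ Submodule.span ℝ (Set.range g) := by
    intro N hN
    refine Submodule.span_induction (p := fun N _ => B⁻¹ * Nᵀ * B ∈ Submodule.span ℝ (Set.range g)) ?_ ?_ ?_ ?_ hN
    · rintro _ ⟨i, rfl⟩
      obtain ⟨j, hj⟩ := hinv i
      have h1 : (g i)ᵀ * B = B * g j := by
        have := hinvB i
        calc (g i)ᵀ * B = (g i)ᵀ * B * (g i * g j) := by rw [hj, mul_one]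
          _ = ((g i)ᵀ * B * g i) * g j := by simp only [Matrix.mul_assoc]
          _ = B * g j := by rw [this]
      rw [Matrix.mul_assoc, h1, ← Matrix.mul_assoc, Matrix.nonsing_inv_mul B hBdet, one_mul]
      exact Submodule.subset_span ⟨j, rfl⟩
    · simp
    · intro a b _ _ ha hb
      rw [Matrix.transpose_add, mul_add, add_mul]
      exact Submodule.add_mem _ ha hb
    · intro c a _ ha
      rw [Matrix.transpose_smul, Matrix.mul_smul, Matrix.smul_mul]
      exact Submodule.smul_mem _ _ ha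
  have hall : ∀ N ∈ Submodule.span ℝ (Set.range g), (M * N).trace = 0 := by
    intro N hN
    refine Submodule.span_induction (p := fun N _ => (M * N).trace = 0) ?_ ?_ ?_ ?_ hN
    · rintro _ ⟨i, rfl⟩
      exact h0 i
    · simp
    · intro a b _ _ ha hb
      rw [mul_add, Matrix.trace_add, ha, hb, add_zero]
    · intro c a _ ha
      rw [Matrix.mul_smul, Matrix.trace_smul, ha, smul_zero]
  have hz := hall _ (hadj M hM)
  have hBi : (B⁻¹).PosDef := hBpos.inv
  have hterm : ∀ i, ((g i * M) * B⁻¹ * (g i * M)ᵀ).trace = (M * B⁻¹ * Mᵀ * ((g i)ᵀ * g i)).trace := by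
    intro i
    rw [Matrix.transpose_mul, Matrix.trace_mul_comm, Matrix.trace_mul_comm (M * B⁻¹ * Mᵀ)]
    have e : Mᵀ * (g i)ᵀ * (g i * M * B⁻¹) = (Mᵀ * ((g i)ᵀ * g i)) * (M * B⁻¹) := by
      simp only [Matrix.mul_assoc]
    rw [e, Matrix.trace_mul_comm]
    have e2 : (g i)ᵀ * g i * (M * B⁻¹ * Mᵀ) = ((g i)ᵀ * g i * (M * B⁻¹)) * Mᵀ := by simp only [Matrix.mul_assoc]
    rw [e2, Matrix.trace_mul_comm _ Mᵀ]
    have e3 : M * B⁻¹ * (Mᵀ * ((g i)ᵀ * g i)) = (M * B⁻¹) * (Mᵀ * ((g i)ᵀ * g i)) := rfl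
    rw [e3, Matrix.trace_mul_comm]
    congr 1
    simp only [Matrix.mul_assoc]
  have hsum : ∑ i, ((g i * M) * B⁻¹ * (g i * M)ᵀ).trace = 0 := by
    simp only [hterm]
    rw [← Matrix.trace_sum, ← Finset.mul_sum, ← hB]
    rw [← hz]
    congr 1
    simp only [Matrix.mul_assoc]
  rw [Finset.sum_eq_zero_iff_of_nonneg fun i _ => quad_nonneg hBi _] at hsum
  obtain ⟨i⟩ := (inferInstance : Nonempty ι)
  have h1 := quad_zero hBi (hsum i (Finset.mem_univ i))
  obtain ⟨u, hu⟩ := hunit i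
  rw [← hu] at h1
  have := congrArg (fun N => (↑u⁻¹ : Matrix (Fin d) (Fin d) ℝ) * N) h1
  simpa [← Matrix.mul_assoc] using this

end Pool.Agent.H9.RP
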