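import Pool.Agent.H9.RP.Main
import Pool.Agent.H9.RP.Trace

/-!
# Rigidity of rational representation polytopes
-/

set_option autoImplicit false
set_option linter.unusedSectionVars false

namespace Pool.Agent.H9.RP

open Finset Module

section defs

variable {X : Type} {V : Type} [AddCommGroup V] [Module ℝ V]

/-- `S` is the set of the `x` with `v x` in some face of the polytope spanned by the points `v x`
(`f = 0` is a supporting hyperplane; the polytope itself and the empty set are faces). -/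
def IsFace (v : X → V) (S : Set X) : Prop :=
  ∃ f : V →ᵃ[ℝ] ℝ, (∀ x, f (v x) ≤ 0) ∧ ∀ x, x ∈ S ↔ f (v x) = 0

/-- The combinatorial symmetries: the permutations which map faces to faces. -/
def comb (v : X → V) : Subgroup (Equiv.Perm X) where
  carrier := {σ | ∀ S : Set X, IsFace v S ↔ IsFace v (σ '' S)}
  mul_mem' := by
    intro σ τ hσ hτ S
    rw [hτ S, hσ (τ '' S), Equiv.Perm.coe_mul, Set.image_comp]
  one_mem' := by
    intro S
    simp
  inv_mem' := by
    intro σ hσ S
    have e : σ '' (⇑σ⁻¹ '' S) = S := by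
      rw [Set.image_image]
      simp
    rw [hσ (⇑σ⁻¹ '' S), e]

/-- The affine symmetries: the permutations of the points induced by affine maps. -/
def aff [Finite X] (v : X → V) : Subgroup (Equiv.Perm X) where
  carrier := {σ | ∃ T : V →ᵃ[ℝ] V, ∀ x, T (v x) = v (σ x)}
  mul_mem' := by
    rintro σ τ ⟨S, hS⟩ ⟨T, hT⟩
    exact ⟨S.comp T, fun x => by rw [AffineMap.comp_apply, hT, hS, Equiv.Perm.mul_apply]⟩
  one_mem' := ⟨AffineMap.id ℝ V, fun _ => rfl⟩
  inv_mem' := by
    rintro σ ⟨T, hT⟩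
    have hpow : ∀ n : ℕ, ∃ S : V →ᵃ[ℝ] V, ∀ x, S (v x) = v ((σ ^ n) x) := by
      intro n
      induction n with
      | zero => exact ⟨AffineMap.id ℝ V, fun _ => rfl⟩
      | succ n ih =>
        obtain ⟨S, hS⟩ := ih
        exact ⟨T.comp S, fun x => by rw [AffineMap.comp_apply, hS, hT, pow_succ', Equiv.Perm.mul_apply]⟩
    have hpos : 0 < orderOf σ := orderOf_pos σ
    obtain ⟨S, hS⟩ := hpow (orderOf σ - 1)
    refine ⟨S, fun x => ?_⟩
    have e : σ ^ (orderOf σ - 1) = σ⁻¹ := by
      rw [eq_inv_iff_mul_eq_one, ← pow_succ, Nat.sub_add_cancel hpos, pow_orderOf_eq_one]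
    rw [hS, e]

theorem aff_le_comb [Finite X] (v : X → V) : aff v ≤ comb v := by
  have key : ∀ σ ∈ aff v, ∀ S : Set X, IsFace v (σ '' S) → IsFace v S := by
    rintro σ ⟨T, hT⟩ S ⟨f, hf, hS⟩
    refine ⟨f.comp T, fun x => ?_, fun x => ?_⟩
    · rw [AffineMap.comp_apply, hT]
      exact hf _
    · rw [AffineMap.comp_apply, hT, ← hS, Set.mem_image]
      constructor
      · exact fun hx => ⟨x, hx, rfl⟩
      · rintro ⟨y, hy, e⟩
        rwa [← σ.injective e]
  intro σ hσ S
  refine ⟨fun h => ?_, key σ hσ S⟩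
  apply key σ⁻¹ ((aff v).inv_mem hσ)
  rw [← Set.image_comp, ← Equiv.Perm.coe_mul]
  simpa using h

/-- the functions on `X` given by the affine functionals -/
def fs (v : X → V) : Submodule ℝ (X → ℝ) where
  carrier := {h | ∃ f : V →ᵃ[ℝ] ℝ, ∀ x, h x = f (v x)}
  add_mem' := by
    rintro h k ⟨f, hf⟩ ⟨g, hg⟩
    exact ⟨f + g, fun x => by simp [hf, hg]⟩
  zero_mem' := ⟨0, fun _ => rfl⟩
  smul_mem' := by
    rintro c h ⟨f, hf⟩
    exact ⟨c • f, fun x => by simp [hf]⟩

theorem one_mem_fs (v : X → V) : (fun _ => (1 : ℝ)) ∈ fs v :=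
  ⟨AffineMap.const ℝ V (1 : ℝ), fun _ => rfl⟩

theorem face_iff (v : X → V) (S : Finset X) : Face (fs v) S ↔ IsFace v (S : Set X) := by
  constructor
  · rintro ⟨h, ⟨f, hf⟩, h1, h2⟩
    exact ⟨f, fun x => by rw [← hf]; exact h1 x, fun x => by rw [← hf]; exact h2 x⟩
  · rintro ⟨f, h1, h2⟩
    exact ⟨fun x => f (v x), ⟨f, fun _ => rfl⟩, h1, h2⟩

/-- an affine map from the inclusion of the function spaces -/
theorem exists_affine {U : Type} [AddCommGroup U] [Module ℝ U] [FiniteDimensional ℝ U] (v : X → V) (u : X → U)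
    (h : fs u ≤ fs v) : ∃ φ : V →ᵃ[ℝ] U, ∀ x, φ (v x) = u x := by
  set b := Module.finBasis ℝ U with hb
  have hk : ∀ k, ∃ f : V →ᵃ[ℝ] ℝ, ∀ x, b.coord k (u x) = f (v x) := fun k =>
    h ⟨(b.coord k).toAffineMap, fun _ => rfl⟩
  choose f hf using hk
  refine ⟨(b.equivFun.symm : (Fin (finrank ℝ U) → ℝ) →ₗ[ℝ] U).toAffineMap.comp (AffineMap.pi f), fun x => ?_⟩
  rw [AffineMap.comp_apply]
  show b.equivFun.symm (fun k => f k (v x)) = u x
  rw [LinearEquiv.symm_apply_eq]
  funext k
  rw [← hf k x]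
  rfl

end defs

section matrices

variable {d : ℕ} (G : Subgroup (GL (Fin d) ℝ))

/-- The vertices of the representation polytope. -/
def mat (g : G) : Matrix (Fin d) (Fin d) ℝ := (g : GL (Fin d) ℝ)

/-- the rational functions in the space of the affine functions -/
def ratPart {X V : Type} [AddCommGroup V] [Module ℝ V] (v : X → V) : Submodule ℚ (X → ℚ) where
  carrier := {f | (fun x => (f x : ℝ)) ∈ fs v}
  add_mem' := by
    intro f g hf hg
    show (fun x => (((f + g) x : ℚ) : ℝ)) ∈ fs v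
    have := (fs v).add_mem hf hg
    convert this using 1
    funext x
    simp
  zero_mem' := by
    show (fun x => (((0 : X → ℚ) x : ℚ) : ℝ)) ∈ fs v
    have := (fs v).zero_mem
    convert this using 1
    funext x
    simp
  smul_mem' := by
    intro c f hf
    show (fun x => (((c • f) x : ℚ) : ℝ)) ∈ fs v
    have := (fs v).smul_mem (c : ℝ) hf
    convert this using 1
    funext x
    simp

variable {G}

theorem mat_mul (a b : G) : mat G (a * b) = mat G a * mat G b := rfl

theorem mat_one : mat G 1 = 1 := rfl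

theorem fs_eq_real [Finite G] (hq : ∀ g ∈ G, ∃ q : ℚ, Matrix.trace (g : Matrix (Fin d) (Fin d) ℝ) = q) :
    real (ratPart (mat G)) = fs (mat G) := by
  classical
  have : Fintype G := Fintype.ofFinite G
  apply le_antisymm
  · refine Submodule.span_le.2 ?_
    rintro _ ⟨f, hf, rfl⟩
    exact hf
  · rintro h ⟨f, hf⟩
    have hone : (fun _ : G => (1 : ℝ)) ∈ real (ratPart (mat G)) := by
      have : (fun _ : G => (1 : ℝ)) = fun x => (((fun _ => 1 : G → ℚ) x : ℚ) : ℝ) := by
        funext x
        simp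
      rw [this]
      refine cast_mem ?_
      show (fun x => (((fun _ => 1 : G → ℚ) x : ℚ) : ℝ)) ∈ fs (mat G)
      rw [← this]
      exact one_mem_fs _
    -- the translates of the character
    have htr : ∀ a : G, (fun x : G => (mat G a * mat G x).trace) ∈ real (ratPart (mat G)) := by
      intro a
      have : ∀ x : G, ∃ q : ℚ, (mat G a * mat G x).trace = q := fun x => hq (a * x : G).1 (a * x : G).2
      choose q hq' using this
      have h1 : (fun x : G => (mat G a * mat G x).trace) = fun x => ((q x : ℚ) : ℝ) := funext hq'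
      rw [h1]
      refine cast_mem ?_
      show (fun x => ((q x : ℚ) : ℝ)) ∈ fs (mat G)
      rw [← h1]
      exact ⟨((Matrix.traceLinearMap (Fin d) ℝ ℝ).comp (LinearMap.mulLeft ℝ (mat G a))).toAffineMap, fun _ => rfl⟩
    set 𝒜 : Submodule ℝ (Matrix (Fin d) (Fin d) ℝ) := Submodule.span ℝ (Set.range (mat G)) with h𝒜
    have hspan : ∀ M ∈ 𝒜, (fun x : G => (M * mat G x).trace) ∈ real (ratPart (mat G)) := by
      intro M hM
      refine Submodule.span_induction (p := fun M _ => (fun x : G => (M * mat G x).trace) ∈ real (ratPart (mat G)))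
        ?_ ?_ ?_ ?_ hM
      · rintro _ ⟨a, rfl⟩
        exact htr a
      · convert (real (ratPart (mat G))).zero_mem using 1
        funext x
        simp
      · intro a b _ _ ha hb
        convert Submodule.add_mem _ ha hb using 1
        funext x
        simp [add_mul]
      · intro c a _ ha
        convert Submodule.smul_mem _ c ha using 1
        funext x
        simp
    -- the trace form is nondegenerate
    let β : 𝒜 →ₗ[ℝ] Module.Dual ℝ 𝒜 :=
      { toFun := fun M =>
          { toFun := fun N => ((M : Matrix (Fin d) (Fin d) ℝ) * N).trace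
            map_add' := fun a b => by simp [mul_add]
            map_smul' := fun c a => by simp }
        map_add' := fun a b => by
          ext N
          simp [add_mul]
        map_smul' := fun c a => by
          ext N
          simp }
    have hβinj : Function.Injective β := by
      rw [← LinearMap.ker_eq_bot, LinearMap.ker_eq_bot']
      intro M hM
      apply Subtype.ext
      refine trace_nondeg (mat G) (fun i => ⟨i⁻¹, ?_⟩) (fun i => ⟨Equiv.mulRight i, fun j => ?_⟩) M.2 fun i => ?_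
      · rw [← mat_mul, mul_inv_cancel]
        rfl
      · rw [← mat_mul]
        rfl
      · have h2 := LinearMap.congr_fun hM ⟨mat G i, Submodule.subset_span ⟨i, rfl⟩⟩
        exact h2
    have hβsurj : Function.Surjective β :=
      (LinearMap.injective_iff_surjective_of_finrank_eq_finrank (Subspace.dual_finrank_eq (K := ℝ) (V := 𝒜)).symm).1 hβinj
    obtain ⟨M, hM⟩ := hβsurj (f.linear.comp 𝒜.subtype)
    have he : h = f 0 • (fun _ : G => (1 : ℝ)) + fun x : G => ((M : Matrix (Fin d) (Fin d) ℝ) * mat G x).trace := by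
      funext x
      have e1 : f (mat G x) = f.linear (mat G x) + f 0 := by
        have := f.map_vadd 0 (mat G x)
        simpa using this
      have e2 : ((M : Matrix (Fin d) (Fin d) ℝ) * mat G x).trace = f.linear (mat G x) :=
        LinearMap.congr_fun hM ⟨mat G x, Submodule.subset_span ⟨x, rfl⟩⟩
      rw [hf x, e1, Pi.add_apply, e2]
      simp [add_comm]
    rw [he]
    exact Submodule.add_mem _ (Submodule.smul_mem _ _ hone) (hspan M M.2)

/-- **Rigidity.** A point configuration with the faces of the rational representation polytope `P(G)`, for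
which the left multiplications by elements of `G` are induced by affine maps, is affinely equivalent to `P(G)`. -/
theorem rigidity [Finite G] (hq : ∀ g ∈ G, ∃ q : ℚ, Matrix.trace (g : Matrix (Fin d) (Fin d) ℝ) = q)
    {V : Type} [AddCommGroup V] [Module ℝ V] [FiniteDimensional ℝ V] (v : G → V)
    (hface : ∀ S : Set G, IsFace (mat G) S ↔ IsFace v S)
    (haff : ∀ g : G, ∃ T : V →ᵃ[ℝ] V, ∀ x, T (v x) = v (g * x)) :
    (∃ φ : Matrix (Fin d) (Fin d) ℝ →ᵃ[ℝ] V, ∀ x, φ (mat G x) = v x) ∧
      ∃ ψ : V →ᵃ[ℝ] Matrix (Fin d) (Fin d) ℝ, ∀ x, ψ (v x) = mat G x := by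
  classical
  have : Fintype G := Fintype.ofFinite G
  have hreal := fs_eq_real hq
  have htau : ∀ a b : G, ∀ f ∈ ratPart (mat G), tau a b f ∈ ratPart (mat G) := by
    rintro a b f ⟨g, hg⟩
    refine ⟨g.comp ((LinearMap.mulLeft ℝ (mat G a)).comp (LinearMap.mulRight ℝ (mat G b))).toAffineMap, fun x => ?_⟩
    have h1 : ((f (a * x * b) : ℚ) : ℝ) = g (mat G (a * x * b)) := hg (a * x * b)
    have h2 : mat G (a * x * b) = mat G a * (mat G x * mat G b) := by simp [mat, mul_assoc]
    rw [h2] at h1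
    exact h1
  have hl : Linv (fs v) := by
    rintro g h ⟨f, hf⟩
    obtain ⟨T, hT⟩ := haff g⁻¹
    exact ⟨f.comp T, fun x => by rw [lt_apply, hf, AffineMap.comp_apply, hT]⟩
  have heq := eq_of_faces (ratPart (mat G)) htau (fs v) hl (by rw [hreal]; exact one_mem_fs _) (one_mem_fs _)
    (fun S => by rw [hreal, face_iff, face_iff]; exact hface _)
  rw [hreal] at heq
  exact ⟨exists_affine (mat G) v heq.le, exists_affine v (mat G) heq.ge⟩

/-- The left multiplications. -/
def left (G : Subgroup (GL (Fin d) ℝ)) : Subgroup (Equiv.Perm G) := (MulAction.toPermHom G G).range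

theorem mem_left {σ : Equiv.Perm G} : σ ∈ left G ↔ ∃ g : G, ∀ x, σ x = g * x := by
  constructor
  · rintro ⟨g, rfl⟩
    exact ⟨g, fun _ => rfl⟩
  · rintro ⟨g, h⟩
    exact ⟨g, Equiv.ext fun x => (h x).symm⟩

theorem mul_mem_aff [Finite G] (a b : G) (σ : Equiv.Perm G) (h : ∀ x, σ x = a * x * b) : σ ∈ aff (mat G) := by
  refine ⟨((LinearMap.mulLeft ℝ (mat G a)).comp (LinearMap.mulRight ℝ (mat G b))).toAffineMap, fun x => ?_⟩
  rw [h]
  show mat G a * (mat G x * mat G b) = mat G (a * x * b)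
  simp [mat, mul_assoc]

theorem left_le_aff [Finite G] : left G ≤ aff (mat G) := by
  intro σ hσ
  obtain ⟨g, h⟩ := mem_left.1 hσ
  exact mul_mem_aff g 1 σ fun x => by rw [h, mul_one]

/-- A combinatorial symmetry which conjugates the left multiplications to affine symmetries is affine. -/
theorem conj_mem [Finite G] (hq : ∀ g ∈ G, ∃ q : ℚ, Matrix.trace (g : Matrix (Fin d) (Fin d) ℝ) = q)
    {σ : Equiv.Perm G} (hσ : σ ∈ comb (mat G)) (hc : ∀ τ ∈ left G, σ * τ * σ⁻¹ ∈ aff (mat G)) :
    σ ∈ aff (mat G) := by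
  have hface : ∀ S : Set G, IsFace (mat G) S ↔ IsFace (fun x => mat G (σ x)) S := by
    intro S
    rw [hσ S]
    constructor
    · rintro ⟨f, h1, h2⟩
      refine ⟨f, fun x => h1 _, fun x => ?_⟩
      rw [← h2, Set.mem_image]
      constructor
      · exact fun hx => ⟨x, hx, rfl⟩
      · rintro ⟨y, hy, e⟩
        rwa [← σ.injective e]
    · rintro ⟨f, h1, h2⟩
      refine ⟨f, fun x => ?_, fun x => ?_⟩
      · have := h1 (σ⁻¹ x)
        simpa using this
      · constructor
        · rintro ⟨y, hy, rfl⟩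
          exact (h2 y).1 hy
        · intro hx
          refine ⟨σ⁻¹ x, (h2 _).2 ?_, by simp⟩
          simpa using hx
  have haff : ∀ g : G, ∃ T : Matrix (Fin d) (Fin d) ℝ →ᵃ[ℝ] Matrix (Fin d) (Fin d) ℝ,
      ∀ x, T (mat G (σ x)) = mat G (σ (g * x)) := by
    intro g
    obtain ⟨T, hT⟩ := hc (MulAction.toPermHom G G g) ⟨g, rfl⟩
    refine ⟨T, fun x => ?_⟩
    rw [hT]
    simp [Equiv.Perm.mul_apply]
  obtain ⟨⟨φ, hφ⟩, -⟩ := rigidity hq (fun x => mat G (σ x)) hface haff
  exact ⟨φ, hφ⟩

/-- normalisers -/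
theorem normalizer_le [Finite G] (hq : ∀ g ∈ G, ∃ q : ℚ, Matrix.trace (g : Matrix (Fin d) (Fin d) ℝ) = q)
    (K : Subgroup (Equiv.Perm G)) (h1 : left G ≤ K) (h2 : K ≤ aff (mat G)) {σ : Equiv.Perm G}
    (hσ : σ ∈ comb (mat G)) (hn : ∀ k ∈ K, σ * k * σ⁻¹ ∈ K) : σ ∈ aff (mat G) :=
  conj_mem hq hσ fun τ hτ => h2 (hn τ (h1 hτ))

/-- subnormal subgroups -/
theorem subnormal [Finite G] (hq : ∀ g ∈ G, ∃ q : ℚ, Matrix.trace (g : Matrix (Fin d) (Fin d) ℝ) = q)
    (H : Subgroup (comb (mat G))) (hH : H.IsSubnormal) (h1 : (left G).subgroupOf (comb (mat G)) ≤ H)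
    (h2 : H ≤ (aff (mat G)).subgroupOf (comb (mat G))) : aff (mat G) = comb (mat G) := by
  have key : (⊤ : Subgroup (comb (mat G))) ≤ (aff (mat G)).subgroupOf (comb (mat G)) := by
    induction hH with
    | top => exact h2
    | step H K hle _ hN ih =>
      refine ih (h1.trans hle) fun x hx => ?_
      rw [Subgroup.mem_subgroupOf]
      refine conj_mem hq x.2 fun τ hτ => ?_
      have hτc : τ ∈ comb (mat G) := aff_le_comb _ (left_le_aff hτ)
      have h3 : (⟨τ, hτc⟩ : comb (mat G)) ∈ H := h1 (Subgroup.mem_subgroupOf.2 hτ)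
      have h4 := hN.conj_mem ⟨⟨τ, hτc⟩, hle h3⟩ (Subgroup.mem_subgroupOf.2 h3) ⟨x, hx⟩
      exact Subgroup.mem_subgroupOf.1 (h2 (Subgroup.mem_subgroupOf.1 h4))
  apply le_antisymm (aff_le_comb _)
  intro σ hσ
  exact Subgroup.mem_subgroupOf.1 (key (Subgroup.mem_top ⟨σ, hσ⟩))

/-- groups of prime power order -/
theorem index_modEq [Finite G] (hq : ∀ g ∈ G, ∃ q : ℚ, Matrix.trace (g : Matrix (Fin d) (Fin d) ℝ) = q)
    (p : ℕ) (hp : p.Prime) (hG : IsPGroup p G) : (aff (mat G)).relIndex (comb (mat G)) ≡ 1 [MOD p] := by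
  have : Fact p.Prime := ⟨hp⟩
  set A : Subgroup (comb (mat G)) := (aff (mat G)).subgroupOf (comb (mat G)) with hA
  have hLC : ∀ g : G, MulAction.toPermHom G G g ∈ comb (mat G) := fun g =>
    aff_le_comb _ (left_le_aff ⟨g, rfl⟩)
  let ι : G →* comb (mat G) := (MulAction.toPermHom G G).codRestrict _ hLC
  let _ : MulAction G (comb (mat G) ⧸ A) := MulAction.compHom _ ι
  have hfin : Finite (comb (mat G) ⧸ A) := inferInstance
  have h1 := hG.card_modEq_card_fixedPoints (comb (mat G) ⧸ A)
  have hfix : MulAction.fixedPoints G (comb (mat G) ⧸ A) = {((1 : comb (mat G)) : comb (mat G) ⧸ A)} := by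
    ext q
    obtain ⟨x, rfl⟩ := QuotientGroup.mk_surjective q
    rw [MulAction.mem_fixedPoints, Set.mem_singleton_iff]
    have hsmul : ∀ g : G, g • (x : comb (mat G) ⧸ A) = ((ι g * x : comb (mat G)) : comb (mat G) ⧸ A) := fun _ => rfl
    constructor
    · intro h
      have hx : (x : Equiv.Perm G)⁻¹ ∈ aff (mat G) := by
        refine conj_mem hq ((comb (mat G)).inv_mem x.2) ?_
        rintro _ ⟨g, rfl⟩
        have h2 := h g
        rw [hsmul, QuotientGroup.eq] at h2
        have h3 : ((ι g * x)⁻¹ * x : comb (mat G)) ∈ A := h2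
        have h4 := A.inv_mem h3
        have h5 := Subgroup.mem_subgroupOf.1 h4
        have e : ((((ι g * x)⁻¹ * x)⁻¹ : comb (mat G)) : Equiv.Perm G) =
            (x : Equiv.Perm G)⁻¹ * MulAction.toPermHom G G g * ((x : Equiv.Perm G)⁻¹)⁻¹ := by
          have : (ι g : Equiv.Perm G) = MulAction.toPermHom G G g := rfl
          simp [mul_assoc, this]
        rwa [e] at h5
      rw [QuotientGroup.eq]
      refine Subgroup.mem_subgroupOf.2 ?_
      simpa using hx
    · intro h g
      rw [h]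
      show ((ι g * 1 : comb (mat G)) : comb (mat G) ⧸ A) = _
      rw [mul_one, QuotientGroup.eq, mul_one]
      refine A.inv_mem (Subgroup.mem_subgroupOf.2 ?_)
      exact left_le_aff ⟨g, rfl⟩
  rw [hfix] at h1
  have h2 : Nat.card (comb (mat G) ⧸ A) = (aff (mat G)).relIndex (comb (mat G)) := rfl
  rw [h2] at h1
  simpa using h1

end matrices

end Pool.Agent.H9.RP
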