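import Pool.Agent.H9.RP.Rat

/-!
# Comparison of two configurations on a finite group
-/

set_option autoImplicit false
set_option linter.unusedSectionVars false

namespace Pool.Agent.H9.RP

open Finset Module

variable {G : Type*} [Group G] [Fintype G] [DecidableEq G]

/-- the real span of a space of rational functions -/
def real (FQ : Submodule ℚ (G → ℚ)) : Submodule ℝ (G → ℝ) :=
  Submodule.span ℝ ((fun (f : G → ℚ) (x : G) => (f x : ℝ)) '' (FQ : Set (G → ℚ)))

theorem cast_mem {FQ : Submodule ℚ (G → ℚ)} {f : G → ℚ} (hf : f ∈ FQ) : (fun x => (f x : ℝ)) ∈ real FQ :=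
  Submodule.subset_span ⟨f, hf, rfl⟩

theorem real_linv {FQ : Submodule ℚ (G → ℚ)} (hF : ∀ a b, ∀ f ∈ FQ, tau a b f ∈ FQ) : Linv (real FQ) := by
  intro g f hf
  refine Submodule.span_induction (p := fun f _ => lt g f ∈ real FQ) ?_ ?_ ?_ ?_ hf
  · rintro _ ⟨f, hf, rfl⟩
    have := cast_mem (hF g⁻¹ 1 f hf)
    convert this using 1
    funext x
    simp [lt_apply, tau_apply]
  · rw [map_zero]
    exact Submodule.zero_mem _
  · intro a b _ _ ha hb
    rw [map_add]
    exact Submodule.add_mem _ ha hb
  · intro c a _ ha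
    rw [map_smul]
    exact Submodule.smul_mem _ _ ha

/-- **Main comparison.** Let `F` be the space of real functions on a finite group spanned by a two-sided
invariant space of rational functions and let `F'` be any space of real functions which is invariant
under left translations. If both contain the constants and give the same faces, they are equal. -/
theorem eq_of_faces (FQ : Submodule ℚ (G → ℚ)) (hF : ∀ a b, ∀ f ∈ FQ, tau a b f ∈ FQ)
    (F' : Submodule ℝ (G → ℝ)) (hF' : Linv F') (h1 : (fun _ => (1 : ℝ)) ∈ real FQ)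
    (h1' : (fun _ => (1 : ℝ)) ∈ F') (hface : ∀ S, Face (real FQ) S ↔ Face F' S) : F' = real FQ := by
  classical
  obtain ⟨z, hz, hzid, hzcent⟩ := exists_idem FQ hF
  set F : Submodule ℝ (G → ℝ) := real FQ with hFdef
  have hFl : Linv F := real_linv hF
  have hzgen : ∀ g g', Subgroup.zpowers g = Subgroup.zpowers g' → (z g : ℝ) = (z g' : ℝ) := by
    intro g g' h
    rw [const_gen (hzid z hz) hzcent h]
  -- left multiplications preserve both spaces
  have hKF : ∀ (W : Submodule ℝ (G → ℝ)), Linv W → ∀ (H : Subgroup G), ∀ k ∈ KK H, ∀ f ∈ W, (fun x => f (k x)) ∈ W := by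
    intro W hW H k hk f hf
    obtain ⟨h, -, e⟩ := mem_KK.1 hk
    have := hW h⁻¹ f hf
    convert this using 1
    funext x
    rw [lt_apply, inv_inv, e]
  have hdim : ∀ H : Subgroup G, finrank ℝ (inv F (KK H)) = finrank ℝ (inv F' (KK H)) := fun H =>
    finrank_inv_eq h1 h1' (hKF F hFl H) (hKF F' hF' H) hface
  have hinvbot : ∀ W : Submodule ℝ (G → ℝ), inv W (KK (⊥ : Subgroup G)) = W := by
    intro W
    apply le_antisymm
    · exact fun f hf => hf.1
    · intro f hf
      refine ⟨hf, fun k hk x => ?_⟩
      obtain ⟨h, hh, e⟩ := mem_KK.1 hk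
      rw [Subgroup.mem_bot.1 hh] at e
      rw [e, one_mul]
  have hrank : finrank ℝ F = finrank ℝ F' := by
    have := hdim ⊥
    rwa [hinvbot, hinvbot] at this
  -- the operator
  set E : (G → ℝ) →ₗ[ℝ] (G → ℝ) := ∑ g, (z g : ℝ) • lt g with hE
  have hEapp : ∀ f x, E f x = ∑ g, (z g : ℝ) * f (g⁻¹ * x) := by
    intro f x
    rw [hE, LinearMap.sum_apply, Finset.sum_apply]
    rfl
  have hEapp' : ∀ f x, E f x = ∑ y, (z (x * y⁻¹) : ℝ) * f y := by
    intro f x
    rw [hEapp]
    refine Fintype.sum_equiv ((Equiv.inv G).trans (Equiv.mulRight x)) _ _ fun g => ?_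
    simp
  have hEid : ∀ f ∈ F, E f = f := by
    intro f hf
    refine Submodule.span_induction (p := fun f _ => E f = f) ?_ ?_ ?_ ?_ hf
    · rintro _ ⟨f, hf, rfl⟩
      funext x
      rw [hEapp']
      have := congrArg (fun q : ℚ => (q : ℝ)) (hzid f hf x)
      simpa using this
    · exact map_zero _
    · intro a b _ _ ha hb
      rw [map_add, ha, hb]
    · intro c a _ ha
      rw [map_smul, ha]
  have hEmem : ∀ f, E f ∈ F := by
    intro f
    have e : E f = ∑ y, f y • fun x => ((tau 1 y⁻¹ z x : ℚ) : ℝ) := by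
      funext x
      rw [hEapp', Finset.sum_apply]
      refine Finset.sum_congr rfl fun y _ => ?_
      rw [Pi.smul_apply, tau_apply, one_mul, smul_eq_mul, mul_comm]
    rw [e]
    exact F.sum_mem fun y _ => F.smul_mem _ (cast_mem (hF _ _ _ hz))
  have hEW : ∀ (W : Submodule ℝ (G → ℝ)), Linv W → ∀ f ∈ W, E f ∈ W := by
    intro W hW f hf
    rw [hE, LinearMap.sum_apply]
    exact W.sum_mem fun g _ => W.smul_mem _ (hW g f hf)
  have htr : ∀ (W : Submodule ℝ (G → ℝ)) (hW : Linv W),
      LinearMap.trace ℝ W (E.restrict (hEW W hW)) = ∑ g, (z g : ℝ) * tr W hW g := by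
    intro W hW
    have e : E.restrict (hEW W hW) = ∑ g, (z g : ℝ) • res W hW g := by
      apply LinearMap.ext
      intro w
      apply Subtype.ext
      rw [LinearMap.sum_apply, AddSubmonoidClass.coe_finsetSum]
      show E (w : G → ℝ) = _
      rw [hE, LinearMap.sum_apply]
      rfl
    rw [e, map_sum]
    exact Finset.sum_congr rfl fun g _ => by rw [map_smul]; rfl
  -- the traces agree
  have hzero : ∑ g, (z g : ℝ) * (tr F hFl g - tr F' hF' g) = 0 := by
    refine weighted_zero _ _ hzgen fun g => ?_
    have hs : ∀ t : G → ℝ, ∑ h ∈ Finset.univ.filter (fun h => h ∈ Subgroup.zpowers g), t h =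
        ∑ h : Subgroup.zpowers g, t h := by
      intro t
      exact Finset.sum_subtype _ (fun x => by simp) t
    rw [hs, Finset.sum_sub_distrib, trace_sum, trace_sum, hdim, sub_self]
  have htrace : LinearMap.trace ℝ F' (E.restrict (hEW F' hF')) = (finrank ℝ F' : ℝ) := by
    have h2 : LinearMap.trace ℝ F (E.restrict (hEW F hFl)) = (finrank ℝ F : ℝ) := by
      have : E.restrict (hEW F hFl) = LinearMap.id := by
        apply LinearMap.ext
        intro w
        apply Subtype.ext
        exact hEid w w.2
      rw [this, LinearMap.trace_id]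
    rw [htr F hFl] at h2
    rw [htr F' hF']
    simp only [mul_sub, Finset.sum_sub_distrib] at hzero
    rw [← hrank, ← h2]
    linarith
  set T := E.restrict (hEW F' hF') with hT
  have hidem : IsIdempotentElem T := by
    apply LinearMap.ext
    intro w
    apply Subtype.ext
    exact hEid _ (hEmem w)
  have hproj := LinearMap.IsIdempotentElem.isProj_range T hidem
  have hfree : ∀ q : Submodule ℝ F', Module.Free ℝ q := fun q => Module.Free.of_divisionRing ℝ q
  have i1 := hfree (LinearMap.range T)
  have i2 := hfree (LinearMap.ker T)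
  have h3 := hproj.trace
  rw [htrace] at h3
  have h4 : finrank ℝ (LinearMap.range T) = finrank ℝ F' := by exact_mod_cast h3.symm
  have htop : LinearMap.range T = ⊤ := Submodule.eq_top_of_finrank_eq h4
  have hle : F' ≤ F := by
    intro f hf
    have hmem : (⟨f, hf⟩ : F') ∈ LinearMap.range T := htop ▸ Submodule.mem_top
    obtain ⟨w, hw⟩ := hmem
    have : E (w : G → ℝ) = f := congrArg Subtype.val hw
    rw [← this]
    exact hEmem _
  exact Submodule.eq_of_le_of_finrank_eq hle hrank.symm

end Pool.Agent.H9.RP
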