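import Pool.Agent.H9.RP.Rep

/-!
# Rational central idempotents

A central idempotent of the rational group algebra takes the same value at two elements which generate
the same cyclic subgroup (by the Frobenius map modulo primes in an arithmetic progression). Every space
of rational functions on a finite group which is invariant on both sides is given by one.
-/

set_option autoImplicit false
set_option linter.unusedSectionVars false

namespace Pool.Agent.H9.RP

open Finset Module

variable {G : Type*} [Group G] [Fintype G] [DecidableEq G]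

section idem

variable {z : G → ℤ} {N : ℤ}

/-- the matrix of the translation by `g` times the idempotent -/
def UU (z : G → ℤ) (g : G) : Matrix G G ℤ := Matrix.of fun x y => z (g * x * y⁻¹)

theorem UU_mul (hconv : ∀ x, ∑ y, z (x * y⁻¹) * z y = N * z x) (hcent : ∀ x y, z (x * y) = z (y * x)) (g h : G) :
    UU z g * UU z h = N • UU z (h * g) := by
  ext x w
  rw [Matrix.mul_apply, Matrix.smul_apply]
  simp only [UU, Matrix.of_apply, smul_eq_mul]
  have e : ∀ y, z (h * y * w⁻¹) = z (y * (w⁻¹ * h)) := by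
    intro y
    rw [mul_assoc h, hcent]
    group
  have e2 : ∀ y, z (g * x * y⁻¹) = z ((g * x * (w⁻¹ * h)) * (y * (w⁻¹ * h))⁻¹) := by
    intro y
    congr 1
    group
  simp only [e, e2]
  rw [Fintype.sum_equiv (Equiv.mulRight (w⁻¹ * h)) (fun y => z ((g * x * (w⁻¹ * h)) * (y * (w⁻¹ * h))⁻¹) * z (y * (w⁻¹ * h)))
    (fun y => z ((g * x * (w⁻¹ * h)) * y⁻¹) * z y) (fun y => rfl), hconv]
  congr 1
  rw [← mul_assoc, hcent (g * x * w⁻¹) h]
  group

theorem UU_pow (hconv : ∀ x, ∑ y, z (x * y⁻¹) * z y = N * z x) (hcent : ∀ x y, z (x * y) = z (y * x)) (g : G) (n : ℕ) :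
    UU z g ^ (n + 1) = N ^ n • UU z (g ^ (n + 1)) := by
  induction n with
  | zero => simp
  | succ n ih =>
    rw [pow_succ, ih, Matrix.smul_mul, UU_mul hconv hcent, smul_smul, ← pow_succ, ← pow_succ']

theorem UU_trace (g : G) : (UU z g).trace = (Fintype.card G : ℤ) * z g := by
  rw [Matrix.trace]
  have : ∀ x, (UU z g).diag x = z g := by
    intro x
    simp [UU, Matrix.diag, mul_assoc]
  rw [Finset.sum_congr rfl fun x _ => this x]
  simp

/-- the congruence -/
theorem frob (hconv : ∀ x, ∑ y, z (x * y⁻¹) * z y = N * z x) (hcent : ∀ x y, z (x * y) = z (y * x)) (g : G)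
    {p : ℕ} (hp : p.Prime) (hN : ¬ (p : ℤ) ∣ N) (hG : ¬ (p : ℤ) ∣ (Fintype.card G : ℤ)) :
    (p : ℤ) ∣ z (g ^ p) - z g := by
  have : Fact p.Prime := ⟨hp⟩
  obtain ⟨m, rfl⟩ : ∃ m, p = m + 1 := ⟨p - 1, by have := hp.pos; omega⟩
  have h1 := congrArg Matrix.trace (UU_pow hconv hcent g m)
  rw [Matrix.trace_smul, UU_trace] at h1
  have h2 : ((UU z g).map (Int.castRingHom (ZMod (m + 1))) ^ (m + 1)).trace =
      ((UU z g).map (Int.castRingHom (ZMod (m + 1)))).trace ^ (m + 1) := ZMod.trace_pow_card _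
  have h3 : ((UU z g).map (Int.castRingHom (ZMod (m + 1))) ^ (m + 1)).trace =
      (((UU z g ^ (m + 1)).trace : ℤ) : ZMod (m + 1)) := by
    rw [← Matrix.map_pow]
    simp [Matrix.trace, Matrix.map_apply]
  have h4 : ((UU z g).map (Int.castRingHom (ZMod (m + 1)))).trace = (((UU z g).trace : ℤ) : ZMod (m + 1)) := by
    simp [Matrix.trace, Matrix.map_apply]
  rw [h3, h4, h1, UU_trace, ZMod.pow_card] at h2
  have hN' : (N : ZMod (m + 1)) ≠ 0 := fun h => hN ((ZMod.intCast_zmod_eq_zero_iff_dvd N (m + 1)).1 h)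
  have hN1 : (N : ZMod (m + 1)) ^ m = 1 := by
    have := ZMod.pow_card_sub_one_eq_one hN'
    simpa using this
  have hG' : ((Fintype.card G : ℤ) : ZMod (m + 1)) ≠ 0 :=
    fun h => hG ((ZMod.intCast_zmod_eq_zero_iff_dvd _ (m + 1)).1 h)
  rw [smul_eq_mul, Int.cast_mul, Int.cast_pow, hN1, one_mul, Int.cast_mul, Int.cast_mul] at h2
  have h5 := mul_left_cancel₀ hG' h2
  rw [← ZMod.intCast_zmod_eq_zero_iff_dvd, Int.cast_sub, h5, sub_self]

theorem const_gen_int (hN0 : N ≠ 0) (hconv : ∀ x, ∑ y, z (x * y⁻¹) * z y = N * z x)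
    (hcent : ∀ x y, z (x * y) = z (y * x)) {g g' : G} (h : Subgroup.zpowers g = Subgroup.zpowers g') : z g = z g' := by
  have hmem : g' ∈ Subgroup.zpowers g := h ▸ Subgroup.mem_zpowers g'
  obtain ⟨k, hk⟩ := (mem_powers_iff_mem_zpowers.2 hmem : g' ∈ Submonoid.powers g)
  have hk : g ^ k = g' := hk
  have hord : orderOf g' = orderOf g := by
    rw [← Nat.card_zpowers, ← Nat.card_zpowers, h]
  have hcop : (orderOf g).Coprime k := by
    have h1 := orderOf_pow g (n := k)
    rw [hk, hord] at h1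
    have hpos := orderOf_pos g
    have hd := Nat.gcd_dvd_left (orderOf g) k
    have hg0 : 0 < Nat.gcd (orderOf g) k := Nat.gcd_pos_of_pos_left _ hpos
    have h2 : Nat.gcd (orderOf g) k * (orderOf g / Nat.gcd (orderOf g) k) = orderOf g := Nat.mul_div_cancel' hd
    rw [← h1] at h2
    have : Nat.gcd (orderOf g) k * orderOf g = 1 * orderOf g := by rw [h2, one_mul]
    exact Nat.eq_of_mul_eq_mul_right hpos this
  have : NeZero (orderOf g) := ⟨(orderOf_pos g).ne'⟩
  have hunit : IsUnit ((k : ℕ) : ZMod (orderOf g)) := (ZMod.isUnit_iff_coprime k (orderOf g)).2 hcop.symm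
  obtain ⟨p, hpgt, hp, hpk⟩ := Nat.forall_exists_prime_gt_and_eq_mod hunit
    (N.natAbs + Fintype.card G + (z g).natAbs + (z g').natAbs)
  have hgp : g ^ p = g' := by
    rw [← hk, pow_eq_pow_iff_modEq]
    exact (ZMod.natCast_eq_natCast_iff _ _ _).1 hpk
  have hcardpos : 0 < Fintype.card G := Fintype.card_pos
  have hd := frob hconv hcent g hp (fun hd => by
      have := Int.natAbs_dvd_natAbs.2 hd
      rw [Int.natAbs_natCast] at this
      have := Nat.le_of_dvd (Int.natAbs_pos.2 hN0) this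
      omega) (fun hd => by
      have := Int.natAbs_dvd_natAbs.2 hd
      rw [Int.natAbs_natCast, Int.natAbs_natCast] at this
      have := Nat.le_of_dvd hcardpos this
      omega)
  rw [hgp] at hd
  by_contra hne
  have h1 := Int.natAbs_dvd_natAbs.2 hd
  rw [Int.natAbs_natCast] at h1
  have h2 := Nat.le_of_dvd (Int.natAbs_pos.2 (sub_ne_zero.2 (Ne.symm hne))) h1
  have h3 := Int.natAbs_sub_le (z g') (z g)
  omega

/-- A rational central idempotent is constant on the generators of a cyclic subgroup. -/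
theorem const_gen {z : G → ℚ} (hconv : ∀ x, ∑ y, z (x * y⁻¹) * z y = z x) (hcent : ∀ x y, z (x * y) = z (y * x))
    {g g' : G} (h : Subgroup.zpowers g = Subgroup.zpowers g') : z g = z g' := by
  -- a common denominator
  set N : ℤ := ∏ x, ((z x).den : ℤ) with hN
  have hN0 : N ≠ 0 := Finset.prod_ne_zero_iff.2 fun x _ => by exact_mod_cast (z x).den_nz
  have hint : ∀ x, ∃ m : ℤ, (m : ℚ) = N * z x := by
    intro x
    obtain ⟨c, hc⟩ := Finset.dvd_prod_of_mem (fun x => ((z x).den : ℤ)) (Finset.mem_univ x)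
    refine ⟨c * (z x).num, ?_⟩
    have h1 : (N : ℚ) = ((z x).den : ℚ) * c := by
      rw [hN, hc]
      push_cast
      ring
    have h2 : ((z x).den : ℚ) * z x = (z x).num := by
      rw [mul_comm]
      exact Rat.mul_den_eq_num (z x)
    rw [h1]
    push_cast
    calc (c : ℚ) * ((z x).num : ℚ) = c * (((z x).den : ℚ) * z x) := by rw [h2]
      _ = _ := by ring
  choose zi hzi using hint
  have hNQ : (N : ℚ) ≠ 0 := by exact_mod_cast hN0
  have hc1 : ∀ x, ∑ y, zi (x * y⁻¹) * zi y = N * zi x := by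
    intro x
    have : ((∑ y, zi (x * y⁻¹) * zi y : ℤ) : ℚ) = ((N * zi x : ℤ) : ℚ) := by
      push_cast
      simp only [hzi]
      have e : ∀ y, (N : ℚ) * z (x * y⁻¹) * (N * z y) = N * N * (z (x * y⁻¹) * z y) := fun y => by ring
      simp only [e]
      rw [← Finset.mul_sum, hconv]
      ring
    exact_mod_cast this
  have hc2 : ∀ x y, zi (x * y) = zi (y * x) := by
    intro x y
    have : ((zi (x * y) : ℤ) : ℚ) = ((zi (y * x) : ℤ) : ℚ) := by
      rw [hzi, hzi, hcent]
    exact_mod_cast this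
  have h1 := const_gen_int hN0 hc1 hc2 h
  have h2 := hzi g
  rw [h1, hzi g'] at h2
  exact (mul_left_cancel₀ hNQ h2).symm

end idem

section proj

/-- two-sided translation of rational functions -/
def tau (a b : G) : (G → ℚ) →ₗ[ℚ] (G → ℚ) := LinearMap.funLeft ℚ ℚ (fun x => a * x * b)

theorem tau_apply (a b : G) (f : G → ℚ) (x : G) : tau a b f x = f (a * x * b) := rfl

theorem tau_tau (a b c d : G) (f : G → ℚ) : tau a b (tau c d f) = tau (c * a) (b * d) f := by
  funext x
  simp only [tau_apply]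
  congr 1
  group

/-- A two-sided invariant space of rational functions is given by a central idempotent. -/
theorem exists_idem (F : Submodule ℚ (G → ℚ)) (hF : ∀ a b, ∀ f ∈ F, tau a b f ∈ F) :
    ∃ z ∈ F, (∀ f ∈ F, ∀ x, ∑ y, z (x * y⁻¹) * f y = f x) ∧ ∀ x y, z (x * y) = z (y * x) := by
  classical
  obtain ⟨p, hp⟩ := F.subtype.exists_leftInverse_of_injective F.ker_subtype
  have hpid : ∀ f (hf : f ∈ F), (p f : G → ℚ) = f := by
    intro f hf
    have := LinearMap.congr_fun hp ⟨f, hf⟩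
    exact congrArg Subtype.val this
  set c : ℚ := (Fintype.card (G × G) : ℚ) with hc
  have hc0 : c ≠ 0 := by
    have : 0 < Fintype.card (G × G) := Fintype.card_pos
    rw [hc]
    positivity
  set E : (G → ℚ) →ₗ[ℚ] (G → ℚ) :=
    c⁻¹ • ∑ ab : G × G, tau ab.1⁻¹ ab.2⁻¹ ∘ₗ F.subtype ∘ₗ p ∘ₗ tau ab.1 ab.2 with hE
  have hEapp : ∀ f, E f = c⁻¹ • ∑ ab : G × G, tau ab.1⁻¹ ab.2⁻¹ (p (tau ab.1 ab.2 f) : G → ℚ) := by
    intro f
    rw [hE, LinearMap.smul_apply, LinearMap.sum_apply]
    rfl
  have hEmem : ∀ f, E f ∈ F := by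
    intro f
    rw [hEapp]
    exact F.smul_mem _ (F.sum_mem fun ab _ => hF _ _ _ (Subtype.mem _))
  have hEid : ∀ f ∈ F, E f = f := by
    intro f hf
    rw [hEapp]
    have : ∀ ab : G × G, tau ab.1⁻¹ ab.2⁻¹ (p (tau ab.1 ab.2 f) : G → ℚ) = f := by
      intro ab
      rw [hpid _ (hF _ _ _ hf), tau_tau]
      funext x
      simp [tau_apply]
    simp only [this, Finset.sum_const, Finset.card_univ]
    rw [← Nat.cast_smul_eq_nsmul ℚ, smul_smul, ← hc, inv_mul_cancel₀ hc0, one_smul]
  have hcomm : ∀ a b f, E (tau a b f) = tau a b (E f) := by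
    intro a b f
    rw [hEapp, hEapp, map_smul, map_sum]
    congr 1
    refine Fintype.sum_equiv ((Equiv.mulLeft a).prodCongr (Equiv.mulRight b)) _ _ fun ab => ?_
    rw [tau_tau, tau_tau]
    simp
  set δ : G → ℚ := Pi.single 1 1 with hδ
  set z : G → ℚ := E δ with hz
  have hl : ∀ y, tau y⁻¹ 1 δ = Pi.single y 1 := by
    intro y
    funext x
    rw [tau_apply, hδ, Pi.single_apply, Pi.single_apply, mul_one]
    by_cases h : x = y
    · subst h
      simp
    · rw [if_neg h, if_neg]
      intro h'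
      exact h (inv_mul_eq_one.1 h').symm
  have hr : ∀ y, tau 1 y⁻¹ δ = Pi.single y 1 := by
    intro y
    funext x
    rw [tau_apply, hδ, Pi.single_apply, Pi.single_apply, one_mul]
    by_cases h : x = y
    · subst h
      simp
    · rw [if_neg h, if_neg]
      intro h'
      exact h (mul_inv_eq_one.1 h')
  have hz1 : ∀ x y, z (y⁻¹ * x) = z (x * y⁻¹) := by
    intro x y
    have h1 : (E (tau y⁻¹ 1 δ)) x = (E (tau 1 y⁻¹ δ)) x := by rw [hl, hr]
    rw [hcomm, hcomm, tau_apply, tau_apply, mul_one, one_mul] at h1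
    exact h1
  refine ⟨z, hEmem _, ?_, ?_⟩
  · intro f hf x
    have e1 : f = ∑ y, f y • (Pi.single y 1 : G → ℚ) := by
      funext x
      simp [Finset.sum_apply, Pi.single_apply]
    have e2 : E f = ∑ y, f y • tau 1 y⁻¹ z := by
      conv_lhs => rw [e1]
      rw [map_sum]
      refine Finset.sum_congr rfl fun y _ => ?_
      rw [map_smul, ← hr y, hcomm]
    have e3 := congrFun (hEid f hf) x
    rw [e2, Finset.sum_apply] at e3
    rw [← e3]
    refine Finset.sum_congr rfl fun y _ => ?_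
    rw [Pi.smul_apply, tau_apply, one_mul, smul_eq_mul, mul_comm]
  · intro x y
    have := hz1 y x⁻¹
    rw [inv_inv] at this
    exact this

end proj

end Pool.Agent.H9.RP
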