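import Pool.Agent.H9.RP.Comb

/-!
# Traces and fixed spaces on spaces of functions on a finite group
-/

set_option autoImplicit false
set_option linter.unusedSectionVars false

namespace Pool.Agent.H9.RP

open Finset Module

variable {G : Type*} [Group G] [Fintype G] [DecidableEq G]

/-- left translation of functions -/
def lt (g : G) : (G → ℝ) →ₗ[ℝ] (G → ℝ) := LinearMap.funLeft ℝ ℝ (fun x => g⁻¹ * x)

theorem lt_apply (g : G) (f : G → ℝ) (x : G) : lt g f x = f (g⁻¹ * x) := rfl

/-- invariance under left translations -/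
def Linv (W : Submodule ℝ (G → ℝ)) : Prop := ∀ g, ∀ f ∈ W, lt g f ∈ W

/-- the left translation on `W` -/
noncomputable def res (W : Submodule ℝ (G → ℝ)) (hW : Linv W) (g : G) : W →ₗ[ℝ] W := (lt g).restrict (hW g)

/-- the character of `W` -/
noncomputable def tr (W : Submodule ℝ (G → ℝ)) (hW : Linv W) (g : G) : ℝ := LinearMap.trace ℝ W (res W hW g)

/-- the left multiplications by the elements of `H` -/
def KK (H : Subgroup G) : Subgroup (Equiv.Perm G) := H.map (MulAction.toPermHom G G)

theorem mem_KK {H : Subgroup G} {k : Equiv.Perm G} : k ∈ KK H ↔ ∃ h ∈ H, ∀ x, k x = h * x := by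
  constructor
  · rintro ⟨h, hh, rfl⟩
    exact ⟨h, hh, fun x => rfl⟩
  · rintro ⟨h, hh, e⟩
    exact ⟨h, hh, Equiv.ext fun x => (e x).symm⟩

theorem trace_sum (W : Submodule ℝ (G → ℝ)) (hW : Linv W) (H : Subgroup G) [Fintype H] :
    ∑ h : H, tr W hW h = (Fintype.card H : ℝ) * (finrank ℝ (inv W (KK H)) : ℝ) := by
  classical
  set T : W →ₗ[ℝ] W := ∑ h : H, res W hW h with hT
  set p : Submodule ℝ W := (inv W (KK H)).comap W.subtype with hp
  have hc : (Fintype.card H : ℝ) ≠ 0 := by
    have : 0 < Fintype.card H := Fintype.card_pos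
    positivity
  have hTapp : ∀ (w : W) (x : G), (T w : G → ℝ) x = ∑ h : H, (w : G → ℝ) ((h : G)⁻¹ * x) := by
    intro w x
    rw [hT, LinearMap.sum_apply, AddSubmonoidClass.coe_finsetSum, Finset.sum_apply]
    rfl
  have hproj : LinearMap.IsProj p ((Fintype.card H : ℝ)⁻¹ • T) := by
    refine ⟨fun w => ?_, fun w hw => ?_⟩
    · show ((((Fintype.card H : ℝ)⁻¹ • T) w : W) : G → ℝ) ∈ inv W (KK H)
      refine ⟨Subtype.mem _, ?_⟩
      intro k hk x
      obtain ⟨h0, hh0, e⟩ := mem_KK.1 hk
      rw [e x]
      show (Fintype.card H : ℝ)⁻¹ * (T w : G → ℝ) (h0 * x) = (Fintype.card H : ℝ)⁻¹ * (T w : G → ℝ) x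
      rw [hTapp, hTapp]
      congr 1
      refine Fintype.sum_equiv (Equiv.mulLeft (⟨h0, hh0⟩ : H)⁻¹) _ _ fun h => ?_
      simp [mul_assoc]
    · have hw' : (w : G → ℝ) ∈ inv W (KK H) := hw
      apply Subtype.ext
      funext x
      show (Fintype.card H : ℝ)⁻¹ * (T w : G → ℝ) x = (w : G → ℝ) x
      rw [hTapp]
      have : ∀ h : H, (w : G → ℝ) ((h : G)⁻¹ * x) = (w : G → ℝ) x := by
        intro h
        have := hw'.2 (MulAction.toPermHom G G (h : G)⁻¹) (mem_KK.2 ⟨(h : G)⁻¹, H.inv_mem h.2, fun x => rfl⟩) x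
        exact this
      simp only [this, Finset.sum_const, Finset.card_univ, nsmul_eq_mul]
      rw [← mul_assoc, inv_mul_cancel₀ hc, one_mul]
  have i1 : Module.Free ℝ p := Module.Free.of_divisionRing ℝ p
  have hfree : ∀ q : Submodule ℝ W, Module.Free ℝ q := fun q => Module.Free.of_divisionRing ℝ q
  have i2 := hfree (LinearMap.ker ((Fintype.card H : ℝ)⁻¹ • T))
  have h1 := hproj.trace
  have h2 : finrank ℝ p = finrank ℝ (inv W (KK H)) :=
    (Submodule.comapSubtypeEquivOfLe (p := inv W (KK H)) (q := W) fun f hf => hf.1).finrank_eq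
  rw [map_smul, hT, map_sum, h2, smul_eq_mul] at h1
  have h3 : ∑ h : H, tr W hW h = ∑ h : H, LinearMap.trace ℝ W (res W hW h) := rfl
  rw [h3, ← h1, ← mul_assoc, mul_inv_cancel₀ hc, one_mul]

/-- a function which is constant on the generators of the cyclic subgroups is orthogonal to a function
whose sums over the cyclic subgroups vanish -/
theorem weighted_zero (z t : G → ℝ)
    (hz : ∀ g g', Subgroup.zpowers g = Subgroup.zpowers g' → z g = z g')
    (ht : ∀ g : G, ∑ h ∈ Finset.univ.filter (fun h => h ∈ Subgroup.zpowers g), t h = 0) :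
    ∑ g, z g * t g = 0 := by
  classical
  have key : ∀ (n : ℕ) (g : G), orderOf g ≤ n →
      ∑ h ∈ Finset.univ.filter (fun h => Subgroup.zpowers h = Subgroup.zpowers g), t h = 0 := by
    intro n
    induction n with
    | zero =>
      intro g hg
      have := orderOf_pos g
      omega
    | succ n ih =>
      intro g hg
      have h1 := ht g
      rw [← Finset.sum_fiberwise_of_maps_to (s := Finset.univ.filter (fun h => h ∈ Subgroup.zpowers g))
        (t := (Finset.univ.filter (fun h => h ∈ Subgroup.zpowers g)).image Subgroup.zpowers)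
        (g := Subgroup.zpowers) (fun h hh => Finset.mem_image_of_mem _ hh)] at h1
      rw [Finset.sum_eq_single (Subgroup.zpowers g)] at h1
      · rw [← h1]
        refine Finset.sum_congr ?_ fun _ _ => rfl
        ext h
        simp only [Finset.mem_filter, Finset.mem_univ, true_and]
        constructor
        · intro e
          exact ⟨e ▸ Subgroup.mem_zpowers h, e⟩
        · exact fun e => e.2
      · intro C hC hne
        obtain ⟨h0, hh0, rfl⟩ := Finset.mem_image.1 hC
        rw [Finset.mem_filter] at hh0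
        have hle : Subgroup.zpowers h0 ≤ Subgroup.zpowers g := Subgroup.zpowers_le.2 hh0.2
        have hlt : orderOf h0 < orderOf g := by
          refine lt_of_le_of_ne (Nat.le_of_dvd (orderOf_pos g) (orderOf_dvd_of_mem_zpowers hh0.2)) fun e => hne ?_
          apply Subgroup.eq_of_le_of_card_ge hle
          rw [Nat.card_zpowers, Nat.card_zpowers, e]
        rw [← ih h0 (by omega)]
        refine Finset.sum_congr ?_ fun _ _ => rfl
        ext h
        simp only [Finset.mem_filter, Finset.mem_univ, true_and]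
        constructor
        · exact fun e => e.2
        · intro e
          exact ⟨hle (e ▸ Subgroup.mem_zpowers h), e⟩
      · intro hno
        exact absurd (Finset.mem_image_of_mem _ (by simp [Subgroup.mem_zpowers])) hno
  rw [← Finset.sum_fiberwise_of_maps_to (s := (Finset.univ : Finset G))
    (t := (Finset.univ : Finset G).image Subgroup.zpowers)
    (g := Subgroup.zpowers) (fun h hh => Finset.mem_image_of_mem _ hh)]
  refine Finset.sum_eq_zero fun C hC => ?_
  obtain ⟨g, -, rfl⟩ := Finset.mem_image.1 hC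
  have : ∀ h ∈ Finset.univ.filter (fun h => Subgroup.zpowers h = Subgroup.zpowers g), z h * t h = z g * t h := by
    intro h hh
    rw [Finset.mem_filter] at hh
    rw [hz h g hh.2]
  rw [Finset.sum_congr rfl this, ← Finset.mul_sum, key _ g le_rfl, mul_zero]

end Pool.Agent.H9.RP
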